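import Pool.Agent.Helper57.M4.Main
import Pool.Agent.Helper57.M4.Exceptions

open Pool.Agent.Helper57.M4

namespace Pool.Agent.Results.MP_2844f6_co.MonotoneFour

/-- A positive integer is the number of order preserving maps from some finite ordered set to the
four-element chain if and only if it is not in the explicit list `exceptions` of 356 integers
(all at most 801); for nonempty ordered sets the integer `1` is lost. -/
theorem result :
    (∀ n : ℕ, (∃ (P : Type) (_ : Finite P) (_ : PartialOrder P), Nat.card (P →o Fin 4) = n) ↔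
      0 < n ∧ n ∉ exceptions) ∧
    (∀ n : ℕ, (∃ (P : Type) (_ : Finite P) (_ : Nonempty P) (_ : PartialOrder P),
      Nat.card (P →o Fin 4) = n) ↔ 1 < n ∧ n ∉ exceptions) := by
  have key : ∀ n : ℕ, (∃ (P : Type) (_ : Finite P) (_ : Nonempty P) (_ : PartialOrder P),
      Nat.card (P →o Fin 4) = n) ↔ 1 < n ∧ n ∉ exceptions := by
    intro n
    rw [← Nat.succ_le_iff]
    refine Iff.trans ?_ (isVal_iff n)
    constructor
    · rintro ⟨P, h1, h2, h3, h4⟩
      exact ⟨P, Fintype.ofFinite P, h3, h2, h4⟩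
    · rintro ⟨P, h1, h2, h3, h4⟩
      exact ⟨P, inferInstance, h3, h2, h4⟩
  refine ⟨?_, key⟩
  intro n
  constructor
  · rintro ⟨P, h1, h2, h3⟩
    rcases isEmpty_or_nonempty P with hP | hP
    · have : n = 1 := by
        rw [← h3, Nat.card_eq_one_iff_unique]
        refine ⟨⟨fun f g => ?_⟩, ⟨⟨fun x => hP.elim x, fun x => hP.elim x⟩⟩⟩
        ext x
        exact hP.elim x
      rw [this]
      exact ⟨one_pos, by decide⟩
    · have h4 := (key n).1 ⟨P, h1, hP, h2, h3⟩
      exact ⟨by omega, h4.2⟩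
  · rintro ⟨h1, h2⟩
    rcases Nat.lt_or_ge 1 n with h | h
    · obtain ⟨P, h3, h4, h5, h6⟩ := (key n).2 ⟨h, h2⟩
      exact ⟨P, h3, h5, h6⟩
    · have : n = 1 := by omega
      subst this
      refine ⟨Fin 0, inferInstance, inferInstance, ?_⟩
      rw [Nat.card_eq_one_iff_unique]
      refine ⟨⟨fun f g => ?_⟩, ⟨⟨fun x => x.elim0, fun x => x.elim0⟩⟩⟩
      ext x
      exact x.elim0

end Pool.Agent.Results.MP_2844f6_co.MonotoneFour
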